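import Mathlib
import Pool.Agent.H14.KnApp

set_option autoImplicit false

namespace Pool.Agent.Results.MP_c3b97e_co.Exact

open Finset Pointwise Pool.Agent.H14.Kneser Pool.Agent.H14.KnApp

/-- `{0}`, `A`, `A + A` are pairwise disjoint. -/
def Free {G : Type} [AddCommGroup G] [DecidableEq G] (A : Finset G) : Prop :=
  Disjoint {0} A ∧ Disjoint {0} (A + A) ∧ Disjoint A (A + A)

open Classical in
noncomputable def v (n : ℕ) : ℕ :=
  if h : ∃ p, p.Prime ∧ p ∣ n ∧ p % 4 = 3 then (Nat.find h + 1) * (n / Nat.find h) / 4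
  else n / 4

theorem lower {n : ℕ} [NeZero n] (d : ℕ) (h : d ∣ n) : ∃ A : Finset (ZMod n), Free A ∧
    A.card = ((d + 1) / 2 - (d + 3) / 4) * (n / d) := by
  have hd : NeZero d := ⟨fun e => NeZero.ne n (by subst e; simpa using h)⟩
  have hd0 := NeZero.pos d
  refine ⟨_, ⟨?_, ?_, ?_⟩, (card_pre h _).trans (by rw [card_Ico_cast ((d + 3) / 4) ((d + 1) / 2)
    (by omega)])⟩
  · simp only [disjoint_singleton_left, mem_filter, mem_univ, true_and, map_zero, ZMod.val_zero]
    omega
  · rw [disjoint_singleton_left]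
    intro h0
    obtain ⟨a, ha, b, hb, e⟩ := mem_add.1 h0
    simp only [mem_filter, mem_univ, true_and] at ha hb
    have := congrArg (fun x => (ZMod.castHom h (ZMod d) x).val) e
    simp only [map_add, map_zero, ZMod.val_zero] at this
    rw [ZMod.val_add_of_lt (by omega)] at this
    omega
  · rw [disjoint_left]
    intro c hc h0
    obtain ⟨a, ha, b, hb, rfl⟩ := mem_add.1 h0
    simp only [mem_filter, mem_univ, true_and, map_add] at ha hb hc
    rw [ZMod.val_add_of_lt (by omega)] at hc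
    omega

theorem upper {n : ℕ} [NeZero n] (A : Finset (ZMod n)) (hA : Free A) (hne : A.Nonempty) :
    (∃ d m, n = d * m ∧ d % 4 = 3 ∧ 4 * A.card ≤ n + m) ∨ 4 * A.card ≤ n := by
  obtain ⟨-, h2, h3⟩ := hA
  rw [disjoint_singleton_left] at h2
  rw [disjoint_left] at h3
  have hk := kneser A (-A) hne hne.neg
  have hHs := stab_sub (A + -A)
  generalize stab (A + -A) = H at *
  have e1 : (A + H).card ≤ (-A + H).card := by
    rw [← card_neg]
    apply card_le_card
    intro x hx
    obtain ⟨a, ha, y, hy, e⟩ := mem_add.1 (mem_neg'.1 hx)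
    exact mem_add.2 ⟨-a, neg_mem_neg ha, -y, hHs.2.2 _ hy, by rw [← neg_add, e, neg_neg]⟩
  have d1 : Disjoint A (-A) := disjoint_left.2 fun x hx hy =>
    h2 (mem_add.2 ⟨x, hx, -x, mem_neg'.1 hy, by simp⟩)
  have d2 : Disjoint (A + -A) (A ∪ -A) := by
    rw [disjoint_left]
    intro x hx hy
    obtain ⟨a, ha, b, hb, rfl⟩ := mem_add.1 hx
    rcases mem_union.1 hy with h | h
    · exact h3 ha (mem_add.2 ⟨_, h, _, mem_neg'.1 hb, by abel⟩)
    · exact h3 (mem_neg'.1 hb) (mem_add.2 ⟨_, ha, _, mem_neg'.1 h, by abel⟩)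
  have h1 := card_le_univ ((A + -A) ∪ (A ∪ -A))
  rw [card_union_of_disjoint d2, card_union_of_disjoint d1, card_neg, ZMod.card] at h1
  obtain ⟨d, hd⟩ := sub_dvd hHs
  obtain ⟨k, hk2⟩ := Per.dvd hHs _ (per_add A hHs)
  rw [ZMod.card] at hd
  have hAH := card_le_card (sub_add A hHs)
  rcases lt_trichotomy (4 * k) (d + 1) with h | h | h
  · have h4 := Nat.mul_le_mul_left H.card (show 4 * k ≤ d by omega)
    rw [mul_left_comm] at h4
    right; omega
  · have h4 := congrArg (H.card * ·) h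
    simp only [mul_add, mul_one] at h4
    rw [mul_left_comm] at h4
    exact Or.inl ⟨d, H.card, hd.trans (mul_comm _ _), by omega, by omega⟩
  · have h4 := Nat.mul_le_mul_left H.card (show d + 2 ≤ 4 * k by omega)
    rw [mul_left_comm, mul_add] at h4
    right; omega

/-- `μ(ℤ_n, [0,2]) = v₂(n, 4)`. -/
theorem result (n : ℕ) (hn : 1 ≤ n) :
    IsGreatest {m : ℕ | ∃ A : Finset (ZMod n), Free A ∧ A.card = m} (v n) := by
  have : NeZero n := ⟨by omega⟩
  unfold v
  split_ifs with h
  · obtain ⟨h1, ⟨t, h2⟩, h3⟩ := Nat.find_spec h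
    have hmin := fun q => Nat.find_min' h (m := q)
    generalize Nat.find h = p at *
    have ht : n / p = t := Nat.div_eq_of_eq_mul_right h1.pos h2
    obtain ⟨j, rfl⟩ : ∃ j, p = 4 * j + 3 := ⟨p / 4, by omega⟩
    rw [ht, show (4 * j + 3 + 1) * t = 4 * ((j + 1) * t) by ring,
      Nat.mul_div_cancel_left _ (by norm_num)]
    constructor
    · obtain ⟨A, a1, a2⟩ := lower (n := n) _ ⟨t, h2⟩
      exact ⟨A, a1, by rw [a2, ht]; congr 1; omega⟩
    · rintro _ ⟨A, hA, rfl⟩
      rcases A.eq_empty_or_nonempty with rfl | hne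
      · simp
      have e : n + t = 4 * ((j + 1) * t) := by rw [h2]; ring
      rcases upper A hA hne with ⟨d, m, a1, a2, a3⟩ | a1
      · obtain ⟨q, b1, b2, b3⟩ := prime_fac 4 (Or.inr rfl) d a2
        have b4 := hmin q ⟨b1, b2.trans ⟨m, a1⟩, b3⟩
        have b5 := Nat.le_of_dvd (by omega) b2
        have b6 : m ≤ t := by
          apply Nat.le_of_mul_le_mul_left _ h1.pos
          rw [← h2, a1]
          exact Nat.mul_le_mul_right _ (by omega)
        omega
      · omega
  · constructor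
    · obtain ⟨A, a1, a2⟩ := lower (n := n) n dvd_rfl
      refine ⟨A, a1, ?_⟩
      have : n % 4 ≠ 3 := fun e => h (prime_fac 4 (Or.inr rfl) n e)
      rw [a2, Nat.div_self hn]
      omega
    · rintro _ ⟨A, hA, rfl⟩
      rcases A.eq_empty_or_nonempty with rfl | hne
      · simp
      rcases upper A hA hne with ⟨d, m, a1, a2, a3⟩ | a1
      · obtain ⟨q, b1, b2, b3⟩ := prime_fac 4 (Or.inr rfl) d a2
        exact absurd ⟨q, b1, b2.trans ⟨m, a1⟩, b3⟩ h
      · omega

end Pool.Agent.Results.MP_c3b97e_co.Exact
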